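import Pool.Agent.H29.HMF.Stmts

/-!
# Board `hmf`, row LF2: the flat does not change if the base point is moved by the Hilbert modular group
-/

set_option autoImplicit false

open Matrix MeasureTheory

namespace Pool.HMF

theorem lf2_thm (hB : BASS) : LF2S := by
  obtain ⟨-, -, -, -, -, -, -, -, hmul, -, -, hone, -⟩ := hB
  intro g g' γ hg
  unfold fl flB
  ext h
  constructor
  · rintro ⟨γ', v, hv, H⟩
    refine ⟨γ' * γ, v, hv, fun i => ?_⟩
    obtain ⟨k, hk, e⟩ := H i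
    refine ⟨k, hk, ?_⟩
    rw [e, hg i, Matrix.SpecialLinearGroup.coe_mul, hmul]
    simp only [Matrix.mul_assoc]
  · rintro ⟨γ', v, hv, H⟩
    refine ⟨γ' * γ⁻¹, v, hv, fun i => ?_⟩
    obtain ⟨k, hk, e⟩ := H i
    refine ⟨k, hk, ?_⟩
    have h1 : cm i (γ⁻¹ : HM).1 * cm i γ.1 = 1 := by
      rw [← hmul, ← Matrix.SpecialLinearGroup.coe_mul, inv_mul_cancel,
        Matrix.SpecialLinearGroup.coe_one, hone]
    rw [e, hg i, Matrix.SpecialLinearGroup.coe_mul, hmul]
    have h2 : cm i γ'.1 * cm i (γ⁻¹ : HM).1 * (cm i γ.1 * (g i).1) =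
        cm i γ'.1 * (cm i (γ⁻¹ : HM).1 * cm i γ.1) * (g i).1 := by
      simp only [Matrix.mul_assoc]
    rw [h2, h1, Matrix.mul_one]

end Pool.HMF
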